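import Pool.Agent.Y782.SA.All

/-!
# Number rigidity of the multivariate spiked stochastic Airy operator

For `F = ℝ, ℂ, ℍ` (`β = 1, 2, 4`), every `r ≥ 1` and every Hermitian `r × r` matrix `S` over `F` the
eigenvalue point process of `H = -d²/dx² + √2 B'_x + r x` on `[0, ∞)` with boundary condition
`f' 0 = S (f 0)` is number rigid, where `B` is standard `β`-matrix Brownian motion.

The operator is given by its quadratic form on the form core of compactly supported `C¹` functions
and its eigenvalues are the Courant-Fischer values of the form, counted with multiplicity over `F`.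
-/

set_option autoImplicit false

open MeasureTheory ProbabilityTheory Set Filter Topology
open scoped NNReal ENNReal Quaternion

namespace Pool.Agent.Results.MP_3ced87_pr.NumberRigidity

section defs

variable {F : Type} [NormedDivisionRing F] [StarRing F] [InnerProductSpace ℝ F]
  [IsScalarTower ℝ F F] [SMulCommClass ℝ F F] [FiniteDimensional ℝ F] {r : ℕ}

/-- The matrix `M` applied to the column vector `v` of `F^r`: `(M v) i = ∑ j, M i j * v j`. -/
noncomputable def act (M : Matrix (Fin r) (Fin r) F) (v : PiLp 2 (fun _ : Fin r => F)) :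
    PiLp 2 (fun _ : Fin r => F) := WithLp.toLp 2 (fun i => ∑ j, M i j * v j)

/-- The quadratic form of `H = -d²/dx² + √2 B'_x + r x` on `[0, ∞)` with boundary condition
`f' 0 = S (f 0)`, i.e.
`∫ |f'|² + r ∫ x |f|² + ⟨S f(0), f(0)⟩ - 2 ∫ ⟨f', √2 B_x f⟩`, the integrals over `(0, ∞)` (the noise
term `√2 ∫ ⟨f, B'_x f⟩` integrated by parts, `B_0 = 0`). -/
noncomputable def airyForm (S : Matrix (Fin r) (Fin r) F) (B : ℝ≥0 → Matrix (Fin r) (Fin r) F)
    (f : ℝ → PiLp 2 (fun _ : Fin r => F)) : ℝ :=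
  (∫ x in Ioi (0 : ℝ), ‖deriv f x‖ ^ 2) + r * (∫ x in Ioi (0 : ℝ), x * ‖f x‖ ^ 2)
    + inner ℝ (act S (f 0)) (f 0)
    - 2 * ∫ x in Ioi (0 : ℝ), inner ℝ (deriv f x) (Real.sqrt 2 • act (B x.toNNReal) (f x))

/-- The numbers `s` such that for some test functions `φ 0, ..., φ k` (`C¹` with compact support)
every non-trivial right linear combination `f = ∑ i, φ i * c i`, `c i ∈ F`, has positive squared
norm `∫_0^∞ |f|²` and satisfies `airyForm f ≤ s ∫_0^∞ |f|²`. -/
def levels (S : Matrix (Fin r) (Fin r) F) (B : ℝ≥0 → Matrix (Fin r) (Fin r) F) (k : ℕ) : Set ℝ :=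
  {s | ∃ φ : Fin (k + 1) → ℝ → PiLp 2 (fun _ : Fin r => F),
    (∀ i, ContDiff ℝ 1 (φ i) ∧ HasCompactSupport (φ i)) ∧
    ∀ c : Fin (k + 1) → F, c ≠ 0 → ∀ f : ℝ → PiLp 2 (fun _ : Fin r => F),
      (f = fun x => ∑ i, WithLp.toLp 2 (fun j => φ i x j * c i)) →
      0 < (∫ x in Ioi (0 : ℝ), ‖f x‖ ^ 2) ∧
      airyForm S B f ≤ s * ∫ x in Ioi (0 : ℝ), ‖f x‖ ^ 2}

/-- The `k`-th eigenvalue of `H`, `k = 0, 1, ...` (Courant-Fischer), with multiplicity over `F`. -/
noncomputable def eigenvalue (S : Matrix (Fin r) (Fin r) F) (B : ℝ≥0 → Matrix (Fin r) (Fin r) F)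
    (k : ℕ) : ℝ := sInf (levels S B k)

/-- The eigenvalue point process as a counting measure. -/
noncomputable def eigenvalueProcess (S : Matrix (Fin r) (Fin r) F)
    (B : ℝ≥0 → Matrix (Fin r) (Fin r) F) : Measure ℝ :=
  Measure.sum fun k => Measure.dirac (eigenvalue S B k)

/-- The normalised real coordinates of a Hermitian matrix with respect to an orthonormal basis `e`
of `F` over `ℝ`: `√(β/2) Re M i i` for each `i`, and `√β ⟨e c, M i j⟩` for `i < j` and each `c`. -/
noncomputable def coord {β : ℕ} (e : OrthonormalBasis (Fin β) ℝ F) (M : Matrix (Fin r) (Fin r) F) :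
    (Fin r ⊕ ({p : Fin r × Fin r // p.1 < p.2} × Fin β)) → ℝ
  | Sum.inl i => Real.sqrt (β / 2) * inner ℝ 1 (M i i)
  | Sum.inr (p, c) => Real.sqrt β * inner ℝ (e c) (M p.1.1 p.1.2)

/-- Standard `β`-matrix Brownian motion: a process of Hermitian matrices whose normalised real
coordinates are independent standard real Brownian motions. -/
structure IsMatrixBM {β : ℕ} (e : OrthonormalBasis (Fin β) ℝ F) {Ω : Type} [MeasurableSpace Ω]
    (B : ℝ≥0 → Ω → Matrix (Fin r) (Fin r) F) (P : Measure Ω) : Prop where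
  herm : ∀ t ω i j, B t ω j i = star (B t ω i j)
  brownian : ∀ α, IsBrownianReal (fun t ω => coord e (B t ω) α) P
  indep : iIndepFun (fun α ω (t : ℝ≥0) => coord e (B t ω) α) P

/-- Number rigidity of a random counting measure `N`: for every bounded Borel set `A` the number
`N A` of points in `A` is almost surely equal to a measurable function of the configuration
outside `A`. -/
def NumberRigid {Ω : Type} [MeasurableSpace Ω] (P : Measure Ω) (N : Ω → Measure ℝ) : Prop :=
  ∀ A : Set ℝ, MeasurableSet A → Bornology.IsBounded A →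
    ∃ g : Measure ℝ → ℝ≥0∞, Measurable g ∧ ∀ᵐ ω ∂P, N ω A = g ((N ω).restrict Aᶜ)

variable (F) in
/-- The theorem for one `F`, with `β = dim_ℝ F`: the eigenvalues are (almost everywhere)
measurable, almost surely finite and tend to infinity, their point process is number rigid, and
the measurable function and the exceptional null set can be taken to be the same for all `A`. -/
def AiryRigid (β : ℕ) : Prop :=
  ∀ (e : OrthonormalBasis (Fin β) ℝ F) (r : ℕ), 1 ≤ r → ∀ (S : Matrix (Fin r) (Fin r) F),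
  (∀ i j, S j i = star (S i j)) →
  ∀ (Ω : Type) [MeasurableSpace Ω] (P : Measure Ω) [IsProbabilityMeasure P]
    (B : ℝ≥0 → Ω → Matrix (Fin r) (Fin r) F), IsMatrixBM e B P →
    (∀ k, AEMeasurable (fun ω => eigenvalue S (fun t => B t ω) k) P) ∧
    (∀ᵐ ω ∂P, (∀ k, (levels S (fun t => B t ω) k).Nonempty ∧
      BddBelow (levels S (fun t => B t ω) k)) ∧
      Tendsto (fun k => eigenvalue S (fun t => B t ω) k) atTop atTop) ∧
    NumberRigid P (fun ω => eigenvalueProcess S (fun t => B t ω)) ∧
    ∃ g : Measure ℝ → ℝ≥0∞, Measurable g ∧ ∀ᵐ ω ∂P, ∀ A : Set ℝ, MeasurableSet A →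
      Bornology.IsBounded A → eigenvalueProcess S (fun t => B t ω) A =
        g ((eigenvalueProcess S fun t => B t ω).restrict Aᶜ)

end defs

section proof

open Pool.Agent.Y782.SA

set_option linter.unusedSectionVars false

variable {F : Type} [NormedDivisionRing F] [StarRing F] [InnerProductSpace ℝ F]
  [IsScalarTower ℝ F F] [SMulCommClass ℝ F F] [FiniteDimensional ℝ F] {r : ℕ}

theorem airyForm_eq (S : Matrix (Fin r) (Fin r) F) (B : ℝ≥0 → Matrix (Fin r) (Fin r) F)
    (f : ℝ → PiLp 2 (fun _ : Fin r => F)) :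
    airyForm S B f = Pool.Agent.Y782.SA.airyForm S B f := rfl

theorem levels_eq (S : Matrix (Fin r) (Fin r) F) (B : ℝ≥0 → Matrix (Fin r) (Fin r) F) (k : ℕ) :
    levels S B k = mmF (Pool.Agent.Y782.SA.airyForm S B) k := by
  ext s
  constructor
  · rintro ⟨φ, hφ, h⟩
    exact ⟨φ, hφ, fun c hc => h c hc _ rfl⟩
  · rintro ⟨φ, hφ, h⟩
    refine ⟨φ, hφ, fun c hc f hf => ?_⟩
    subst hf
    exact h c hc

theorem eigenvalue_eq (S : Matrix (Fin r) (Fin r) F) (B : ℝ≥0 → Matrix (Fin r) (Fin r) F) (k : ℕ) :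
    eigenvalue S B k = eig S B k := by
  unfold eigenvalue eig lamF
  rw [levels_eq]

theorem process_eq (S : Matrix (Fin r) (Fin r) F) (B : ℝ≥0 → Matrix (Fin r) (Fin r) F) :
    eigenvalueProcess S B = eigProc S B := by
  unfold eigenvalueProcess eigProc
  simp only [eigenvalue_eq]

theorem coord_eq {β : ℕ} (e : OrthonormalBasis (Fin β) ℝ F) (M : Matrix (Fin r) (Fin r) F) :
    coord e M = Pool.Agent.Y782.SA.coord e M := by
  funext α
  rcases α with i | ⟨p, c⟩ <;> rfl

theorem bridge (β : ℕ) (h : ∀ e : OrthonormalBasis (Fin β) ℝ F,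
    Pool.Agent.Y782.SA.AiryRigid F β e) : AiryRigid F β := by
  intro e r hr S hS Ω _ P _ B hB
  have hB' : MatBM e B P := ⟨fun t ω i j => hB.herm t ω i j, fun α => by
      have := hB.brownian α
      simpa only [coord_eq] using this, by
      have := hB.indep
      simpa only [coord_eq] using this⟩
  have := h e r hr S (fun i j => hS i j) Ω P B hB'
  simp only [levels_eq, eigenvalue_eq, process_eq]
  exact this

end proof

/-- **Number rigidity of the multivariate spiked stochastic Airy operator**, `β = 1, 2, 4`. -/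
theorem result : AiryRigid ℝ 1 ∧ AiryRigid ℂ 2 ∧ AiryRigid ℍ[ℝ] 4 :=
  ⟨bridge 1 Pool.Agent.Y782.SA.all'.1, bridge 2 Pool.Agent.Y782.SA.all'.2.1,
    bridge 4 Pool.Agent.Y782.SA.all'.2.2⟩

end Pool.Agent.Results.MP_3ced87_pr.NumberRigidity
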